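import Mathlib

/-!
# Edge count versus maximum forcing number

Every graph `G` on `2n` vertices with a perfect matching has `e(G) ≥ n² / (n - F(G))`.

Proof. Let `M` be a perfect matching. Choose in every edge of `M` the endpoint `x` of smaller degree and let `N x` be
the set of the other chosen endpoints `y` such that `x` is adjacent to an endpoint of the matching edge of `y`. Then
`1 + |N x| ≤ deg x`. A greedy argument (repeatedly take `x` with the smallest `|N x|` and delete `N x`) gives a
sequence `x₁, x₂, …` of length at least `∑ 1 / (1 + |N x|) ≥ ∑ 1 / deg x ≥ n² / e(G)` such that no `x_j` is in `N x_i`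
for `i < j`. The matching edges outside of the sequence force those of the sequence, one after the other.
-/

set_option autoImplicit false

namespace Pool.Agent.Results.MP_f5b231_co.EdgeCountForcing

open SimpleGraph Finset

/-- `S` is a forcing set of the perfect matching `M` of `G`: a set of edges of `M` such that `M` is the only
perfect matching of `G` that contains `S`. -/
def IsForcingSet {V : Type} (G : SimpleGraph V) (M : G.Subgraph) (S : Set (Sym2 V)) : Prop :=
  S ⊆ M.edgeSet ∧ ∀ M' : G.Subgraph, M'.IsPerfectMatching → S ⊆ M'.edgeSet → M' = M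

/-- The forcing number `f(G, M)`: the least size of a forcing set of `M`. -/
noncomputable def forcingNumber {V : Type} (G : SimpleGraph V) (M : G.Subgraph) : ℕ :=
  sInf {k | ∃ S : Set (Sym2 V), IsForcingSet G M S ∧ S.ncard = k}

/-- The maximum forcing number `F(G)`: the largest `f(G, M)`, where `M` is a perfect matching of `G`. -/
noncomputable def maxForcingNumber {V : Type} (G : SimpleGraph V) : ℕ :=
  sSup {k | ∃ M : G.Subgraph, M.IsPerfectMatching ∧ forcingNumber G M = k}

/-- The greedy lemma. -/
theorem greedy {α : Type} [DecidableEq α] (N : α → Finset α) :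
    ∀ (m : ℕ) (X : Finset α), X.card = m →
    ∃ l : List α, l.Nodup ∧ (∀ x ∈ l, x ∈ X) ∧ l.Pairwise (fun x y => y ∉ N x) ∧
      ∑ x ∈ X, (1 : ℝ) / (1 + ((N x ∩ X).card : ℝ)) ≤ l.length := by
  intro m
  induction m using Nat.strong_induction_on with
  | _ m ih =>
    intro X hX
    rcases X.eq_empty_or_nonempty with rfl | hne
    · exact ⟨[], List.nodup_nil, by simp, List.Pairwise.nil, by simp⟩
    obtain ⟨v, hv, hmin⟩ := X.exists_min_image (fun x => (N x ∩ X).card) hne
    set Y := X.filter (fun y => y ≠ v ∧ y ∉ N v) with hY
    have hYX : Y ⊆ X := filter_subset _ _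
    have hvY : v ∉ Y := by simp [hY]
    have hcard : Y.card < m := by
      rw [← hX]
      exact card_lt_card (Finset.ssubset_iff_subset_ne.2 ⟨hYX, fun h => hvY (h ▸ hv)⟩)
    obtain ⟨l, hl1, hl2, hl3, hl4⟩ := ih _ hcard Y rfl
    refine ⟨v :: l, ?_, ?_, ?_, ?_⟩
    · rw [List.nodup_cons]
      exact ⟨fun h => hvY (hl2 v h), hl1⟩
    · intro x hx
      rcases List.mem_cons.1 hx with rfl | hx
      · exact hv
      · exact hYX (hl2 x hx)
    · rw [List.pairwise_cons]
      refine ⟨fun y hy => ?_, hl3⟩
      have := hl2 y hy
      rw [hY, mem_filter] at this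
      exact this.2.2
    · have hsplit : ∑ x ∈ X, (1 : ℝ) / (1 + ((N x ∩ X).card : ℝ)) =
          ∑ x ∈ X \ Y, (1 : ℝ) / (1 + ((N x ∩ X).card : ℝ)) +
          ∑ x ∈ Y, (1 : ℝ) / (1 + ((N x ∩ X).card : ℝ)) := (sum_sdiff hYX).symm
      have h1 : ∑ x ∈ Y, (1 : ℝ) / (1 + ((N x ∩ X).card : ℝ)) ≤
          ∑ x ∈ Y, (1 : ℝ) / (1 + ((N x ∩ Y).card : ℝ)) := by
        refine sum_le_sum (fun x _ => ?_)
        apply one_div_le_one_div_of_le
        · positivity
        · have : (N x ∩ Y).card ≤ (N x ∩ X).card := card_le_card (inter_subset_inter_left hYX)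
          have : ((N x ∩ Y).card : ℝ) ≤ ((N x ∩ X).card : ℝ) := by exact_mod_cast this
          linarith
      have h2 : ∑ x ∈ X \ Y, (1 : ℝ) / (1 + ((N x ∩ X).card : ℝ)) ≤ 1 := by
        have h3 : (X \ Y).card ≤ 1 + (N v ∩ X).card := by
          have : X \ Y ⊆ insert v (N v ∩ X) := by
            intro y hy
            rw [mem_sdiff, hY, mem_filter] at hy
            rw [mem_insert, mem_inter]
            by_contra hcon
            push Not at hcon
            exact hy.2 ⟨hy.1, hcon.1, fun h => hcon.2 h hy.1⟩
          refine (card_le_card this).trans ((card_insert_le _ _).trans ?_)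
          omega
        have h4 : ∑ x ∈ X \ Y, (1 : ℝ) / (1 + ((N x ∩ X).card : ℝ)) ≤
            ∑ _x ∈ X \ Y, (1 : ℝ) / (1 + ((N v ∩ X).card : ℝ)) := by
          refine sum_le_sum (fun x hx => ?_)
          apply one_div_le_one_div_of_le
          · positivity
          · have : ((N v ∩ X).card : ℝ) ≤ ((N x ∩ X).card : ℝ) := by
              exact_mod_cast hmin x (mem_sdiff.1 hx).1
            linarith
        refine h4.trans ?_
        rw [sum_const, nsmul_eq_mul]
        have h5 : ((X \ Y).card : ℝ) ≤ 1 + ((N v ∩ X).card : ℝ) := by exact_mod_cast h3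
        rw [mul_one_div]
        exact div_le_one_of_le₀ h5 (by positivity)
      rw [hsplit, List.length_cons]
      push_cast
      linarith

section Main

variable {V : Type} [Fintype V] {G : SimpleGraph V} {M : G.Subgraph}

/-- The forcing number of a perfect matching is at most `n - n² / e(G)`. -/
theorem forcing_le (n : ℕ) (hV : Fintype.card V = 2 * n) (hn : 1 ≤ n) (hM : M.IsPerfectMatching) :
    (n : ℝ) ^ 2 / (G.edgeSet.ncard : ℝ) ≤ n - forcingNumber G M := by
  classical
  have hex : ∀ v, ∃ w, M.Adj v w ∧ ∀ w', M.Adj v w' → w' = w := fun v =>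
    (Subgraph.isPerfectMatching_iff.1 hM) v
  choose μ hμ hμu using hex
  have hμμ : ∀ v, μ (μ v) = v := fun v => (hμu (μ v) v (hμ v).symm).symm
  have hμne : ∀ v, μ v ≠ v := fun v h => by
    have := (hμ v).adj_sub
    rw [h] at this
    exact G.loopless.irrefl v this
  have hμinj : ∀ v w, μ v = μ w → v = w := fun v w h => by rw [← hμμ v, h, hμμ]
  -- the chosen endpoints
  let e := Fintype.equivFin V
  set X : Finset V := univ.filter (fun v => G.degree v < G.degree (μ v) ∨
    (G.degree v = G.degree (μ v) ∧ e v < e (μ v))) with hXdef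
  have hX : ∀ v, v ∈ X ↔ (G.degree v < G.degree (μ v) ∨
    (G.degree v = G.degree (μ v) ∧ e v < e (μ v))) := fun v => by simp [hXdef]
  have hXμ : ∀ v, μ v ∈ X ↔ v ∉ X := by
    intro v
    rw [hX, hX, hμμ]
    have hne : e v ≠ e (μ v) := fun h => hμne v (e.injective h).symm
    constructor
    · rintro (h | ⟨h1, h2⟩) (h' | ⟨h1', h2'⟩)
      · omega
      · omega
      · omega
      · exact absurd (h2.trans h2') (lt_irrefl _)
    · intro h
      push Not at h
      rcases lt_or_eq_of_le h.1 with h' | h'
      · exact Or.inl h'
      · refine Or.inr ⟨h', ?_⟩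
        exact lt_of_le_of_ne (h.2 h'.symm) hne.symm
  have hXdeg : ∀ v ∈ X, G.degree v ≤ G.degree (μ v) := by
    intro v hv
    rcases (hX v).1 hv with h | h
    · exact h.le
    · exact h.1.le
  have hsum : ∀ f : V → ℕ, ∑ v, f v = ∑ v ∈ X, (f v + f (μ v)) := by
    intro f
    rw [sum_add_distrib, ← sum_add_sum_compl X f]
    congr 1
    symm
    apply sum_bij (fun v _ => μ v)
    · intro v hv
      rw [mem_compl, hXμ, not_not] 
      exact hv
    · intro v _ w _ h
      exact hμinj v w h
    · intro w hw
      refine ⟨μ w, (hXμ w).2 (mem_compl.1 hw), hμμ w⟩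
    · intro v _
      rfl
  have hXcard : X.card = n := by
    have := hsum (fun _ => 1)
    simp only [sum_const, smul_eq_mul, mul_one, card_univ] at this
    omega
  have hdeg : ∑ v ∈ X, (G.degree v + G.degree (μ v)) = 2 * G.edgeSet.ncard := by
    rw [← hsum, sum_degrees_eq_twice_card_edges, Set.ncard_eq_toFinset_card', Set.toFinset_card]
    rw [← edgeFinset_card]
  -- out-neighbours
  let N : V → Finset V := fun x => X.filter (fun y => y ≠ x ∧ (G.Adj x y ∨ G.Adj x (μ y)))
  have hN : ∀ x ∈ X, 1 + (N x).card ≤ G.degree x := by
    intro x hx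
    have h1 : (N x).card ≤ ((G.neighborFinset x).erase (μ x)).card := by
      apply card_le_card_of_injOn (fun y => if G.Adj x y then y else μ y)
      · intro y hy
        have hy' : y ∈ X ∧ y ≠ x ∧ (G.Adj x y ∨ G.Adj x (μ y)) := by
          simpa [N] using hy
        obtain ⟨hyX, hyx, hadj⟩ := hy'
        rw [mem_coe, mem_erase, mem_neighborFinset]
        dsimp only
        split_ifs with h
        · refine ⟨?_, h⟩
          rintro rfl
          exact ((hXμ x).1 hyX) hx
        · refine ⟨fun h' => hyx (hμinj _ _ h'), ?_⟩
          rcases hadj with h' | h'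
          · exact absurd h' h
          · exact h'
      · intro y hy z hz hyz
        have hy' : y ∈ X := by
          have := (mem_coe.1 hy)
          exact (mem_filter.1 this).1
        have hz' : z ∈ X := by
          have := (mem_coe.1 hz)
          exact (mem_filter.1 this).1
        dsimp only at hyz
        split_ifs at hyz with h1 h2 h2
        · exact hyz
        · exfalso
          rw [hyz] at hy'
          exact ((hXμ z).1 hy') hz'
        · exfalso
          rw [← hyz] at hz'
          exact ((hXμ y).1 hz') hy'
        · exact hμinj _ _ hyz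
    have h2 : μ x ∈ G.neighborFinset x := by
      rw [mem_neighborFinset]
      exact (hμ x).adj_sub
    rw [card_erase_of_mem h2, card_neighborFinset_eq_degree] at h1
    have h3 : 0 < G.degree x := by
      rw [← card_neighborFinset_eq_degree]
      exact card_pos.2 ⟨_, h2⟩
    omega
  obtain ⟨l, hl1, hl2, hl3, hl4⟩ := greedy N X.card X rfl
  -- the forcing set
  let S : Finset (Sym2 V) := (X \ l.toFinset).image (fun y => s(y, μ y))
  have hS : IsForcingSet G M (S : Set (Sym2 V)) := by
    constructor
    · intro f hf
      rw [mem_coe, mem_image] at hf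
      obtain ⟨y, _, rfl⟩ := hf
      rw [Subgraph.mem_edgeSet]
      exact hμ y
    · intro M' hM' hSM
      have hex' : ∀ v, ∃ w, M'.Adj v w ∧ ∀ w', M'.Adj v w' → w' = w := fun v =>
        (Subgraph.isPerfectMatching_iff.1 hM') v
      choose ν hν hνu using hex'
      have hout : ∀ y ∈ X, y ∉ l → M'.Adj y (μ y) := by
        intro y hy hyl
        have : s(y, μ y) ∈ (S : Set (Sym2 V)) := by
          rw [mem_coe, mem_image]
          exact ⟨y, by rw [mem_sdiff, List.mem_toFinset]; exact ⟨hy, hyl⟩, rfl⟩
        exact (Subgraph.mem_edgeSet).1 (hSM this)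
      -- one step
      have hstep : ∀ x ∈ X, (∀ y ∈ N x, M'.Adj y (μ y)) → M'.Adj x (μ x) := by
        intro x hx hall
        have hxν := hν x
        have hadj : G.Adj x (ν x) := hxν.adj_sub
        -- the matching edge of `ν x`
        obtain ⟨y, hy, hyν⟩ : ∃ y ∈ X, ν x = y ∨ ν x = μ y := by
          by_cases h : ν x ∈ X
          · exact ⟨ν x, h, Or.inl rfl⟩
          · exact ⟨μ (ν x), (hXμ _).2 h, Or.inr (hμμ _).symm⟩
        by_cases hyx : y = x
        · subst hyx
          rcases hyν with h | h
          · rw [h] at hadj
            exact absurd hadj (G.loopless.irrefl _)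
          · rw [← h]
            exact hxν
        · exfalso
          have hyN : y ∈ N x := by
            simp only [N, mem_filter]
            refine ⟨hy, hyx, ?_⟩
            rcases hyν with h | h
            · left; rwa [h] at hadj
            · right; rwa [h] at hadj
          have h1 := hall y hyN
          rcases hyν with h | h
          · -- `ν x = y`, so the `M'`-partner of `y` is `x` and `μ y`
            have h2 : M'.Adj y x := by rw [← h]; exact hxν.symm
            have h3 : x = μ y := (hνu y x h2).trans (hνu y (μ y) h1).symm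
            rw [h3] at hx
            exact ((hXμ y).1 hx) hy
          · have h2 : M'.Adj (μ y) x := by rw [← h]; exact hxν.symm
            have h3 : x = y := (hνu (μ y) x h2).trans (hνu (μ y) y h1.symm).symm
            exact hyx h3.symm
      -- along the list
      have hlist : ∀ x ∈ l, M'.Adj x (μ x) := by
        have key : ∀ (l₁ l₂ : List V), l = l₁ ++ l₂ → ∀ x ∈ l₁, M'.Adj x (μ x) := by
          intro l₁
          induction l₁ using List.reverseRecOn with
          | nil => intro _ _ x hx; simp at hx
          | append_singleton l₁ a ih =>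
            intro l₂ hl x hx
            have hl' : l = l₁ ++ (a :: l₂) := by rw [hl]; simp
            have hprev := ih (a :: l₂) hl'
            rw [List.mem_append, List.mem_singleton] at hx
            rcases hx with hx | rfl
            · exact hprev x hx
            · have hxl : x ∈ l := by rw [hl']; simp
              apply hstep x (hl2 x hxl)
              intro y hy
              have hyX : y ∈ X := (mem_filter.1 hy).1
              by_cases hyl : y ∈ l
              · rw [hl', List.mem_append, List.mem_cons] at hyl
                rcases hyl with h | h | h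
                · exact hprev y h
                · exact absurd h (mem_filter.1 hy).2.1
                · exfalso
                  rw [hl', List.pairwise_append, List.pairwise_cons] at hl3
                  exact hl3.2.1.1 y h hy
              · exact hout y hyX hyl
        exact key l [] (by simp)
      have hallX : ∀ x ∈ X, M'.Adj x (μ x) := by
        intro x hx
        by_cases h : x ∈ l
        · exact hlist x h
        · exact hout x hx h
      have hallV : ∀ x, M'.Adj x (μ x) := by
        intro x
        by_cases h : x ∈ X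
        · exact hallX x h
        · have := hallX (μ x) ((hXμ x).2 h)
          rw [hμμ] at this
          exact this.symm
      apply Subgraph.ext
      · rw [Subgraph.isSpanning_iff.1 hM.2, Subgraph.isSpanning_iff.1 hM'.2]
      · ext a b
        constructor
        · intro h
          have : b = μ a := (hνu a b h).trans (hνu a (μ a) (hallV a)).symm
          rw [this]
          exact hμ a
        · intro h
          rw [hμu a b h]
          exact hallV a
  have hScard : (S : Set (Sym2 V)).ncard + l.length ≤ n := by
    rw [Set.ncard_coe_finset]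
    have h1 : S.card ≤ (X \ l.toFinset).card := card_image_le
    have h2 : (X \ l.toFinset).card + l.toFinset.card = X.card := by
      apply card_sdiff_add_card_eq_card
      intro x hx
      exact hl2 x (List.mem_toFinset.1 hx)
    rw [List.toFinset_card_of_nodup hl1] at h2
    omega
  have hforce : forcingNumber G M + l.length ≤ n := by
    have : forcingNumber G M ≤ (S : Set (Sym2 V)).ncard := Nat.sInf_le ⟨_, hS, rfl⟩
    omega
  -- the lower bound of the length
  have hpos : ∀ x ∈ X, (0 : ℝ) < ((G.degree x : ℝ) + G.degree (μ x)) := by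
    intro x hx
    have := hN x hx
    have h1 : (1 : ℝ) ≤ G.degree x := by
      have : 1 ≤ G.degree x := by omega
      exact_mod_cast this
    positivity
  have hlen : (n : ℝ) ^ 2 / (G.edgeSet.ncard : ℝ) ≤ l.length := by
    have h1 : ∑ x ∈ X, (2 : ℝ) / ((G.degree x : ℝ) + G.degree (μ x)) ≤ l.length := by
      refine le_trans (sum_le_sum (fun x hx => ?_)) hl4
      have h2 : ((N x ∩ X).card : ℝ) ≤ (N x).card := by
        exact_mod_cast card_le_card inter_subset_left
      have h3 : 1 + ((N x).card : ℝ) ≤ G.degree x := by exact_mod_cast hN x hx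
      have h4 : (G.degree x : ℝ) ≤ G.degree (μ x) := by exact_mod_cast hXdeg x hx
      rw [div_le_div_iff₀ (hpos x hx) (by positivity)]
      nlinarith
    have h2 := sq_sum_div_le_sum_sq_div X (fun _ => (1 : ℝ)) hpos
    have h3 : ∑ x ∈ X, ((G.degree x : ℝ) + G.degree (μ x)) = 2 * (G.edgeSet.ncard : ℝ) := by
      exact_mod_cast hdeg
    rw [h3] at h2
    simp only [sum_const, nsmul_eq_mul, mul_one, one_pow, hXcard] at h2
    have h4 : ∑ x ∈ X, (2 : ℝ) / ((G.degree x : ℝ) + G.degree (μ x)) =
        2 * ∑ x ∈ X, (1 : ℝ) / ((G.degree x : ℝ) + G.degree (μ x)) := by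
      rw [mul_sum]
      refine sum_congr rfl (fun x _ => ?_)
      ring
    rw [h4] at h1
    refine le_trans ?_ h1
    refine le_trans (le_of_eq ?_) (mul_le_mul_of_nonneg_left h2 (by norm_num))
    rcases eq_or_ne (G.edgeSet.ncard : ℝ) 0 with h0 | h0
    · rw [h0]; simp
    · field_simp
  have hfin : (forcingNumber G M : ℝ) + l.length ≤ n := by exact_mod_cast hforce
  linarith

end Main

/-- **Edge count versus maximum forcing number.** Every graph on `2n ≥ 2` vertices with a perfect matching satisfies
`F(G) < n` and `n² / (n - F(G)) ≤ e(G)`. -/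
theorem result (n : ℕ) (hn : 1 ≤ n) (V : Type) [Fintype V] (hV : Fintype.card V = 2 * n)
    (G : SimpleGraph V) (hG : ∃ M : G.Subgraph, M.IsPerfectMatching) :
    maxForcingNumber G < n ∧
      (n : ℝ) ^ 2 / ((n : ℝ) - maxForcingNumber G) ≤ (G.edgeSet.ncard : ℝ) := by
  classical
  obtain ⟨M₀, hM₀⟩ := hG
  have hmem : maxForcingNumber G ∈
      {k | ∃ M : G.Subgraph, M.IsPerfectMatching ∧ forcingNumber G M = k} := by
    apply Nat.sSup_mem
    · exact ⟨_, M₀, hM₀, rfl⟩
    · have : Finite G.Subgraph := inferInstance
      refine ((Set.finite_range (fun M : G.Subgraph => forcingNumber G M)).subset ?_).bddAbove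
      rintro k ⟨M, _, rfl⟩
      exact ⟨M, rfl⟩
  obtain ⟨M, hM, hMF⟩ := hmem
  have h1 := forcing_le n hV hn hM
  rw [hMF] at h1
  -- there is an edge
  have he : (0 : ℝ) < G.edgeSet.ncard := by
    have hne : Nonempty V := by
      rw [← Fintype.card_pos_iff]
      omega
    obtain ⟨v⟩ := hne
    obtain ⟨w, hw, _⟩ := (Subgraph.isPerfectMatching_iff.1 hM) v
    have : 0 < G.edgeSet.ncard := by
      rw [Set.ncard_pos]
      exact ⟨s(v, w), (mem_edgeSet G).2 hw.adj_sub⟩
    exact_mod_cast this
  have hn' : (0 : ℝ) < n := by exact_mod_cast hn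
  have hpos : (0 : ℝ) < (n : ℝ) - maxForcingNumber G := by
    refine lt_of_lt_of_le ?_ h1
    positivity
  constructor
  · have : (maxForcingNumber G : ℝ) < n := by linarith
    exact_mod_cast this
  · rw [div_le_iff₀ hpos]
    rw [div_le_iff₀ he] at h1
    linarith

end Pool.Agent.Results.MP_f5b231_co.EdgeCountForcing
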